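import Pool.Agent.Helper49.KX.St

/-!
# Project KX: module ABS, the absorption lemma
-/

set_option autoImplicit false

namespace Pool.Agent.Helper48.KX

open Pool.Agent.Helper49.KX

theorem hABS : StAbs := by
  intro A _ x p q f r φ φ' a b c c' h1 hpp hqq hff hrr hpq hqp hpf hfp hpr hrp hqf hfq hqr hrq hfr hrf
    hfφ hφr hrφ' hφ'f hφ'φ hφφ' hpa hqb hfc hfc'
  obtain ⟨α, hα⟩ : ∃ α, α = x * r - f * x * r + φ := ⟨_, rfl⟩
  have hfα : f * α = φ := by
    rw [hα, mul_add, mul_sub, hfφ, ← mul_assoc, ← mul_assoc, ← mul_assoc, hff]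
    abel
  have hαr : α * r = α := by
    rw [hα, add_mul, sub_mul, hφr, mul_assoc, hrr, mul_assoc (f * x), hrr]
  have hφ'α : φ' * α = r := by rw [← hφ'f, mul_assoc, hfα, hφ'φ]
  have hφ'p : φ' * p = 0 := by rw [← hφ'f, mul_assoc, hfp, mul_zero]
  obtain ⟨e, he⟩ : ∃ e, e = p - p * α * φ' + α * (r + φ' - r * α * φ') := ⟨_, rfl⟩
  have heα : e * α = α := by
    have e1 : e * α = p * α - p * α * (φ' * α) + α * (r * α + φ' * α - r * α * (φ' * α)) := by
      rw [he]; noncomm_ring
    rw [e1, hφ'α, mul_assoc p, hαr, mul_assoc r, hαr, sub_self, zero_add, add_sub_cancel_left, hαr]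
  have hep : e * p = p := by
    have e1 : e * p = p * p - p * α * (φ' * p) + α * (r * p + φ' * p - r * α * (φ' * p)) := by
      rw [he]; noncomm_ring
    rw [e1, hφ'p, hrp, hpp]
    simp
  have hee : e * e = e := by
    have e1 : e * e = e * p - e * p * α * φ' + e * α * (r + φ' - r * α * φ') := by
      conv_lhs => rw [he]
      rw [← he]
      have : e * (p - p * α * φ' + α * (r + φ' - r * α * φ')) =
        e * p - e * p * α * φ' + e * α * (r + φ' - r * α * φ') := by noncomm_ring
      rw [← this, ← he]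
    rw [e1, hep, heα, ← he]
  refine ⟨a - a * α * φ' + (r - c * (x * r - φ)) * (r + φ' - r * α * φ'),
    b - b * α * φ' + (r + c' * (x * r - φ)) * (r - r * α * φ'), ?_⟩
  have hxα : x * (r - c * (x * r - φ)) = α := by
    have : x * (r - c * (x * r - φ)) = x * r - (x * c) * x * r + (x * c) * φ := by noncomm_ring
    rw [this, ← hfc, hfφ, ← hα]
  have hxy : x * (a - a * α * φ' + (r - c * (x * r - φ)) * (r + φ' - r * α * φ')) = e := by
    have : x * (a - a * α * φ' + (r - c * (x * r - φ)) * (r + φ' - r * α * φ')) =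
      (x * a) - (x * a) * α * φ' + (x * (r - c * (x * r - φ))) * (r + φ' - r * α * φ') := by
      noncomm_ring
    rw [this, ← hpa, hxα, ← he]
  have hrα : (1 - x) * (r + c' * (x * r - φ)) = r - α := by
    have : (1 - x) * (r + c' * (x * r - φ)) =
      r - x * r + ((1 - x) * c') * x * r - ((1 - x) * c') * φ := by noncomm_ring
    rw [this, ← hfc', hfφ, hα]
    abel
  have hz : (1 - x) * (b - b * α * φ' + (r + c' * (x * r - φ)) * (r - r * α * φ')) =
      q - q * α * φ' + (r - α) * (r - r * α * φ') := by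
    have : (1 - x) * (b - b * α * φ' + (r + c' * (x * r - φ)) * (r - r * α * φ')) =
      ((1 - x) * b) - ((1 - x) * b) * α * φ' +
        ((1 - x) * (r + c' * (x * r - φ))) * (r - r * α * φ') := by
      noncomm_ring
    rw [this, ← hqb, hrα]
  rw [hxy, hz]
  refine ⟨hee, ?_⟩
  have hf2 : f * α * φ' = f := by rw [hfα, hφφ']
  have e2 : (r - α) * (r - r * α * φ') = r * r - r * r * α * φ' - α * r + α * r * α * φ' := by
    noncomm_ring
  have e3 : e = p - p * α * φ' + α * r + α * φ' - α * r * α * φ' := by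
    rw [he]; noncomm_ring
  have e4 : α * φ' = p * α * φ' + q * α * φ' + f * α * φ' + r * α * φ' := by
    rw [← add_mul, ← add_mul, ← add_mul, ← add_mul, ← add_mul, ← add_mul, h1, one_mul]
  rw [e2, hrr, e3, ← h1]
  rw [hf2] at e4
  rw [e4]
  abel

end Pool.Agent.Helper48.KX
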